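import Pool.Agent.H388.IT.Tree

set_option autoImplicit false
set_option linter.dupNamespace false
set_option linter.unusedSectionVars false

/-!
# Induced trees in a graph and the components of `G - S` (helper388)
-/

namespace Pool.Agent.H388.IT

open Finset SimpleGraph

open Classical

/-- The sets `{v | inC C v}` are the components of `G - S`. -/
structure Comps {V : Type} (G : SimpleGraph V) (S : Finset V) (Q : Type) (inC : Q → V → Prop) :
    Prop where
  out : ∀ C v, inC C v → v ∉ S
  ex : ∀ v, v ∉ S → ∃ C, inC C v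
  uniq : ∀ C D v, inC C v → inC D v → C = D
  adj : ∀ C D v w, inC C v → inC D w → G.Adj v w → C = D
  ne : ∀ C, ∃ v, inC C v
  conn : ∀ C (P : V → Prop), (∃ v, inC C v ∧ P v) →
    (∀ x y, inC C x → inC C y → G.Adj x y → P x → P y) → ∀ v, inC C v → P v

variable {V : Type} {G : SimpleGraph V} {S : Finset V} {Q : Type} [Fintype Q]
  {inC : Q → V → Prop}

/-- `a` is adjacent to some vertex of `C` -/
def adjC (G : SimpleGraph V) (inC : Q → V → Prop) (a : V) (C : Q) : Prop :=
  ∃ v, inC C v ∧ G.Adj a v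

/-- the components adjacent to `a` -/
noncomputable def N (G : SimpleGraph V) (inC : Q → V → Prop) (a : V) : Finset Q :=
  univ.filter (adjC G inC a)

theorem mem_N {a : V} {C : Q} : C ∈ N G inC a ↔ adjC G inC a C := by
  unfold N
  rw [mem_filter]
  exact ⟨fun h => h.2, fun h => ⟨mem_univ _, h⟩⟩

/-- leaves at the centre `a`, one in every component of `D` -/
theorem leaves (hC : Comps G S Q inC) {T : Finset V} (hT : IT G T) {a : V} (ha : a ∈ T)
    (D : Finset Q) (hD : ∀ C ∈ D, adjC G inC a C) (h1 : ∀ C ∈ D, ∀ w ∈ T, ¬ inC C w)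
    (h2 : ∀ C ∈ D, ∀ w ∈ T, w ≠ a → ¬ adjC G inC w C) :
    ∃ T', IT G T' ∧ T ⊆ T' ∧ T'.card = T.card + D.card ∧ ∀ w ∈ T', w ∉ T → ∃ C ∈ D, inC C w := by
  have hV : Nonempty V := ⟨a⟩
  unfold adjC at hD
  choose! rep hrep using hD
  have hinj : Set.InjOn rep (D : Set Q) := by
    intro C hC' C' hC'' he
    have h3 := (hrep C hC').1
    rw [he] at h3
    exact hC.uniq C C' _ h3 (hrep C' hC'').1
  have hdis : Disjoint T (D.image rep) := by
    rw [Finset.disjoint_left]
    intro w hw hw'
    obtain ⟨C, hCD, rfl⟩ := mem_image.1 hw'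
    exact h1 C hCD _ hw (hrep C hCD).1
  refine ⟨T ∪ D.image rep, hT.leaves _ ?_ ?_ ?_, subset_union_left, ?_, ?_⟩
  · intro x hx hxT
    exact (Finset.disjoint_left.1 hdis) hxT hx
  · intro x hx
    obtain ⟨C, hCD, rfl⟩ := mem_image.1 hx
    refine ⟨a, ha, (hrep C hCD).2, fun w hw hwx => ?_⟩
    by_contra hwa
    exact h2 C hCD w hw hwa ⟨rep C, (hrep C hCD).1, hwx⟩
  · intro x hx y hy hxy
    obtain ⟨C, hCD, rfl⟩ := mem_image.1 hx
    obtain ⟨C', hCD', rfl⟩ := mem_image.1 hy
    have h3 := hC.adj C C' _ _ (hrep C hCD).1 (hrep C' hCD').1 hxy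
    rw [h3] at hxy
    exact G.loopless.irrefl _ hxy
  · rw [card_union_of_disjoint hdis, card_image_of_injOn hinj]
  · intro w hw hwT
    rcases mem_union.1 hw with h3 | h3
    · exact absurd h3 hwT
    · obtain ⟨C, hCD, rfl⟩ := mem_image.1 h3
      exact ⟨C, hCD, (hrep C hCD).1⟩

/-- the star -/
theorem star (hC : Comps G S Q inC) {a : V} (ha : a ∈ S) (D : Finset Q)
    (hD : D ⊆ N G inC a) : ∃ T', IT G T' ∧ a ∈ T' ∧ T'.card = 1 + D.card ∧
      ∀ w ∈ T', w ≠ a → ∃ C ∈ D, inC C w := by
  obtain ⟨T', h1, h2, h3, h4⟩ := leaves hC (IT.single a) (mem_singleton_self a) D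
    (fun C hCD => mem_N.1 (hD hCD)) (fun C _ w hw hw' => by
      rw [mem_singleton] at hw
      rw [hw] at hw'
      exact hC.out _ _ hw' ha) (fun C _ w hw hwa => absurd (mem_singleton.1 hw) hwa)
  refine ⟨T', h1, h2 (mem_singleton_self a), by rw [h3, card_singleton], fun w hw hwa => ?_⟩
  exact h4 w hw (fun h => hwa (mem_singleton.1 h))

theorem star_le (hC : Comps G S Q inC) {m : ℕ} (hT : ∀ T : Finset V, IT G T → T.card ≤ m + 1)
    {a : V} (ha : a ∈ S) : (N G inC a).card ≤ m := by
  obtain ⟨T', h1, -, h3, -⟩ := star hC ha (N G inC a) (Subset.refl _)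
  have := hT T' h1
  omega

/-- domination -/
theorem dom (hC : Comps G S Q inC) {k : ℕ} (hT : ∀ T : Finset V, IT G T → T.card ≤ k + 2)
    {a : V} (ha : a ∈ S) (hN : (N G inC a).card = k + 1) {C : Q} (hCN : C ∈ N G inC a) :
    ∀ v, inC C v → G.Adj a v := by
  obtain ⟨v0, hv0, hav0⟩ := mem_N.1 hCN
  refine hC.conn C (fun x => G.Adj a x) ⟨v0, hv0, hav0⟩ ?_
  intro x y hx hy hxy hax
  by_contra hay
  have hxa : x ≠ a := fun h => hC.out C x hx (h ▸ ha)
  have hya : y ≠ a := fun h => hC.out C y hy (h ▸ ha)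
  have t1 : IT G (insert x {a}) := (IT.single a).insert
    (fun h => hxa (mem_singleton.1 h)) (mem_singleton_self a) hax
    (fun w hw _ => mem_singleton.1 hw)
  have t2 : IT G (insert y (insert x {a})) := by
    refine t1.insert ?_ (mem_insert_self x _) hxy ?_
    · intro h
      rcases mem_insert.1 h with h | h
      · exact hxy.ne h.symm
      · exact hya (mem_singleton.1 h)
    · intro w hw hwy
      rcases mem_insert.1 hw with h | h
      · exact h
      · rw [mem_singleton.1 h] at hwy
        exact absurd hwy hay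
  have hc2 : (insert y (insert x ({a} : Finset V))).card = 3 := by
    rw [card_insert_of_notMem, card_insert_of_notMem, card_singleton]
    · exact fun h => hxa (mem_singleton.1 h)
    · intro h
      rcases mem_insert.1 h with h | h
      · exact hxy.ne h.symm
      · exact hya (mem_singleton.1 h)
  obtain ⟨T', h1, -, h3, -⟩ := leaves hC t2 (a := a)
    (mem_insert_of_mem (mem_insert_of_mem (mem_singleton_self a))) ((N G inC a).erase C)
    (fun D hD => mem_N.1 (mem_of_mem_erase hD)) (by
      intro D hD w hw hw'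
      rcases mem_insert.1 hw with h | h
      · rw [h] at hw'
        exact (ne_of_mem_erase hD) (hC.uniq D C _ hw' hy)
      · rcases mem_insert.1 h with h | h
        · rw [h] at hw'
          exact (ne_of_mem_erase hD) (hC.uniq D C _ hw' hx)
        · rw [mem_singleton.1 h] at hw'
          exact hC.out D a hw' ha) (by
      intro D hD w hw hwa ⟨z, hz, hwz⟩
      rcases mem_insert.1 hw with h | h
      · rw [h] at hwz
        exact (ne_of_mem_erase hD) (hC.adj C D _ _ hy hz hwz).symm
      · rcases mem_insert.1 h with h | h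
        · rw [h] at hwz
          exact (ne_of_mem_erase hD) (hC.adj C D _ _ hx hz hwz).symm
        · exact hwa (mem_singleton.1 h))
  have h4 := hT T' h1
  rw [h3, hc2, card_erase_of_mem hCN, hN] at h4
  omega

/-- `a` or a vertex of a component adjacent to `a` -/
def U (G : SimpleGraph V) (inC : Q → V → Prop) (a w : V) : Prop :=
  w = a ∨ ∃ C ∈ N G inC a, inC C w

/-- adjacent to `U` -/
def Touch (G : SimpleGraph V) (inC : Q → V → Prop) (a w : V) : Prop :=
  ∃ u, U G inC a u ∧ G.Adj w u

theorem ext_one (hC : Comps G S Q inC) {a : V} {T : Finset V} (hTT : IT G T) {b : V} (hb : b ∈ T)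
    (h1 : ∀ w ∈ T, ¬ U G inC a w) (h2 : ∀ w ∈ T, w ≠ b → ¬ Touch G inC a w) :
    ∃ T', IT G T' ∧ T ⊆ T' ∧
      T'.card = T.card + ((N G inC a).filter (adjC G inC b)).card ∧
      ∀ w ∈ T', w ∉ T → U G inC a w := by
  obtain ⟨T', g1, g2, g3, g4⟩ := leaves hC hTT hb ((N G inC a).filter (adjC G inC b))
    (fun C hCD => (mem_filter.1 hCD).2)
    (fun C hCD w hw hw' => h1 w hw (Or.inr ⟨C, (mem_filter.1 hCD).1, hw'⟩))
    (fun C hCD w hw hwb ⟨z, hz, hwz⟩ =>
      h2 w hw hwb ⟨z, Or.inr ⟨C, (mem_filter.1 hCD).1, hz⟩, hwz⟩)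
  refine ⟨T', g1, g2, g3, fun w hw hwT => ?_⟩
  obtain ⟨C, hCD, hwC⟩ := g4 w hw hwT
  exact Or.inr ⟨C, (mem_filter.1 hCD).1, hwC⟩

theorem ext_two (hC : Comps G S Q inC) {k : ℕ} (hT : ∀ T : Finset V, IT G T → T.card ≤ k + 2)
    {a : V} (ha : a ∈ S) (hN : (N G inC a).card = k + 1) {T : Finset V} (hTT : IT G T) {b : V}
    (hb : b ∈ T) (h1 : ∀ w ∈ T, ¬ U G inC a w) (h2 : ∀ w ∈ T, w ≠ b → ¬ Touch G inC a w)
    (h3 : Touch G inC a b) : ∃ T', IT G T' ∧ T ⊆ T' ∧
      T.card + 1 + ((N G inC a).filter (fun C => ¬ adjC G inC b C)).card ≤ T'.card ∧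
      ∀ w ∈ T', w ∉ T → U G inC a w := by
  have haT : a ∉ T := fun h => h1 a h (Or.inl rfl)
  by_cases hab : G.Adj a b
  · have t1 : IT G (insert a T) := by
      refine hTT.insert haT hb hab.symm fun w hw hwa => ?_
      by_contra hwb
      exact h2 w hw hwb ⟨a, Or.inl rfl, hwa⟩
    obtain ⟨T', g1, g2, g3, g4⟩ := leaves hC t1 (mem_insert_self a T)
      ((N G inC a).filter (fun C => ¬ adjC G inC b C)) (fun C hCD => mem_N.1 (mem_filter.1 hCD).1)
      (by
        intro C hCD w hw hw'
        rcases mem_insert.1 hw with h | h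
        · rw [h] at hw'
          exact hC.out C a hw' ha
        · exact h1 w h (Or.inr ⟨C, (mem_filter.1 hCD).1, hw'⟩))
      (by
        intro C hCD w hw hwa hwC
        rcases mem_insert.1 hw with h | h
        · exact hwa h
        · by_cases hwb : w = b
          · rw [hwb] at hwC
            exact (mem_filter.1 hCD).2 hwC
          · obtain ⟨z, hz, hwz⟩ := hwC
            exact h2 w h hwb ⟨z, Or.inr ⟨C, (mem_filter.1 hCD).1, hz⟩, hwz⟩)
    refine ⟨T', g1, (subset_insert a T).trans g2, ?_, fun w hw hwT => ?_⟩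
    · rw [g3, card_insert_of_notMem haT]
    · by_cases hwa : w = a
      · exact Or.inl hwa
      · obtain ⟨C, hCD, hwC⟩ := g4 w hw (fun h => by
          rcases mem_insert.1 h with h | h
          · exact hwa h
          · exact hwT h)
        exact Or.inr ⟨C, (mem_filter.1 hCD).1, hwC⟩
  · obtain ⟨u, hu, hbu⟩ := h3
    rcases hu with hu | ⟨C0, hC0, huC⟩
    · rw [hu] at hbu
      exact absurd hbu.symm hab
    have hau : G.Adj a u := dom hC hT ha hN hC0 u huC
    have huT : u ∉ T := fun h => h1 u h (Or.inr ⟨C0, hC0, huC⟩)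
    have t1 : IT G (insert u T) := by
      refine hTT.insert huT hb hbu fun w hw hwu => ?_
      by_contra hwb
      exact h2 w hw hwb ⟨u, Or.inr ⟨C0, hC0, huC⟩, hwu⟩
    have haT' : a ∉ insert u T := by
      intro h
      rcases mem_insert.1 h with h | h
      · exact hau.ne h
      · exact haT h
    have t2 : IT G (insert a (insert u T)) := by
      refine t1.insert haT' (mem_insert_self u T) hau.symm fun w hw hwa => ?_
      rcases mem_insert.1 hw with h | h
      · exact h
      · by_cases hwb : w = b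
        · rw [hwb] at hwa
          exact absurd hwa.symm hab
        · exact absurd ⟨a, Or.inl rfl, hwa⟩ (h2 w h hwb)
    have hbC0 : adjC G inC b C0 := ⟨u, huC, hbu⟩
    obtain ⟨T', g1, g2, g3, g4⟩ := leaves hC t2 (mem_insert_self a _)
      ((N G inC a).filter (fun C => ¬ adjC G inC b C)) (fun C hCD => mem_N.1 (mem_filter.1 hCD).1)
      (by
        intro C hCD w hw hw'
        rcases mem_insert.1 hw with h | h
        · rw [h] at hw'
          exact hC.out C a hw' ha
        · rcases mem_insert.1 h with h | h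
          · rw [h] at hw'
            have h5 := hC.uniq C C0 _ hw' huC
            rw [h5] at hCD
            exact (mem_filter.1 hCD).2 hbC0
          · exact h1 w h (Or.inr ⟨C, (mem_filter.1 hCD).1, hw'⟩))
      (by
        intro C hCD w hw hwa hwC
        rcases mem_insert.1 hw with h | h
        · exact hwa h
        · rcases mem_insert.1 h with h | h
          · obtain ⟨z, hz, hwz⟩ := hwC
            rw [h] at hwz
            have h5 := hC.adj C0 C _ _ huC hz hwz
            rw [← h5] at hCD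
            exact (mem_filter.1 hCD).2 hbC0
          · by_cases hwb : w = b
            · rw [hwb] at hwC
              exact (mem_filter.1 hCD).2 hwC
            · obtain ⟨z, hz, hwz⟩ := hwC
              exact h2 w h hwb ⟨z, Or.inr ⟨C, (mem_filter.1 hCD).1, hz⟩, hwz⟩)
    refine ⟨T', g1, ((subset_insert u T).trans (subset_insert a _)).trans g2, ?_,
      fun w hw hwT => ?_⟩
    · rw [g3, card_insert_of_notMem haT', card_insert_of_notMem huT]
      omega
    · by_cases hwa : w = a
      · exact Or.inl hwa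
      · by_cases hwu : w = u
        · rw [hwu]
          exact Or.inr ⟨C0, hC0, huC⟩
        · obtain ⟨C, hCD, hwC⟩ := g4 w hw (fun h => by
            rcases mem_insert.1 h with h | h
            · exact hwa h
            · rcases mem_insert.1 h with h | h
              · exact hwu h
              · exact hwT h)
          exact Or.inr ⟨C, (mem_filter.1 hCD).1, hwC⟩

/-- the better one of the two extensions -/
theorem ext_max (hC : Comps G S Q inC) {k : ℕ} (hT : ∀ T : Finset V, IT G T → T.card ≤ k + 2)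
    {a : V} (ha : a ∈ S) (hN : (N G inC a).card = k + 1) {T : Finset V} (hTT : IT G T) {b : V}
    (hb : b ∈ T) (h1 : ∀ w ∈ T, ¬ U G inC a w) (h2 : ∀ w ∈ T, w ≠ b → ¬ Touch G inC a w)
    (h3 : Touch G inC a b) : ∃ T', IT G T' ∧ T ⊆ T' ∧
      2 * T.card + (k + 2) ≤ 2 * T'.card ∧ ∀ w ∈ T', w ∉ T → U G inC a w := by
  obtain ⟨T₁, p1, p2, p3, p4⟩ := ext_one hC hTT hb h1 h2
  obtain ⟨T₂, q1, q2, q3, q4⟩ := ext_two hC hT ha hN hTT hb h1 h2 h3
  have hs := card_filter_add_card_filter_not (s := N G inC a) (adjC G inC b)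
  rw [hN] at hs
  by_cases h : 2 * T.card + (k + 2) ≤ 2 * T₁.card
  · exact ⟨T₁, p1, p2, h, p4⟩
  · exact ⟨T₂, q1, q2, by omega, q4⟩

/-- two linked vertices have many common components -/
theorem pair (hC : Comps G S Q inC) {k : ℕ} (hT : ∀ T : Finset V, IT G T → T.card ≤ k + 2)
    {a a' : V} (ha : a ∈ S) (ha' : a' ∈ S) (hne : a' ≠ a) (hN : (N G inC a).card = k + 1)
    (hN' : (N G inC a').card = k + 1) (h : Touch G inC a a') :
    k + 2 ≤ 2 * ((N G inC a).filter (adjC G inC a')).card := by
  have hs := card_filter_add_card_filter_not (s := N G inC a) (adjC G inC a')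
  have hs' := card_filter_add_card_filter_not (s := N G inC a') (adjC G inC a)
  have hcomm : (N G inC a').filter (adjC G inC a) = (N G inC a).filter (adjC G inC a') := by
    ext C
    rw [mem_filter, mem_filter, mem_N, mem_N, and_comm]
  rw [hcomm, hN'] at hs'
  rw [hN] at hs
  obtain ⟨T, t1, t2, t3, t4⟩ := star hC ha' ((N G inC a').filter (fun C => ¬ adjC G inC a C))
    (filter_subset _ _)
  obtain ⟨T', g1, -, g3, -⟩ := ext_two hC hT ha hN t1 t2 (by
    intro w hw hU
    by_cases hwa : w = a'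
    · rw [hwa] at hU
      rcases hU with h5 | ⟨C, hCa, hC'⟩
      · exact hne h5
      · exact hC.out C a' hC' ha'
    · obtain ⟨C, hCD, hwC⟩ := t4 w hw hwa
      rcases hU with h5 | ⟨C', hCa, hC'⟩
      · rw [h5] at hwC
        exact hC.out C a hwC ha
      · have h6 := hC.uniq C C' _ hwC hC'
        rw [h6] at hCD
        exact (mem_filter.1 hCD).2 (mem_N.1 hCa)) (by
    intro w hw hwa hto
    obtain ⟨C, hCD, hwC⟩ := t4 w hw hwa
    obtain ⟨u, hu, hwu⟩ := hto
    rcases hu with h5 | ⟨C', hCa, hC'⟩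
    · rw [h5] at hwu
      exact (mem_filter.1 hCD).2 ⟨w, hwC, hwu.symm⟩
    · have h6 := hC.adj C C' _ _ hwC hC' hwu
      rw [h6] at hCD
      exact (mem_filter.1 hCD).2 (mem_N.1 hCa)) h
  have h7 := hT T' g1
  omega

end Pool.Agent.H388.IT
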