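import Pool.Agent.H388.IT.Core

set_option autoImplicit false
set_option linter.dupNamespace false
set_option linter.unusedSectionVars false

/-!
# Induced trees in a graph and the components of `G - S`: the bound (helper388)
-/

namespace Pool.Agent.H388.IT

open Finset SimpleGraph

open Classical

variable {V : Type} {G : SimpleGraph V} {S : Finset V} {Q : Type} [Fintype Q]
  {inC : Q → V → Prop}

/-- geodesics induce trees -/
theorem path_tree (q : ℕ → V) (n : ℕ) (hadj : ∀ i, 1 ≤ i → i < n → G.Adj (q i) (q (i + 1)))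
    (hinj : ∀ i j, 1 ≤ i → i < j → j ≤ n → q i ≠ q j)
    (hno : ∀ i j, 1 ≤ i → i < j → j ≤ n → G.Adj (q i) (q j) → j = i + 1) :
    ∀ m, 1 ≤ m → m ≤ n → IT G ((Icc 1 m).image q) := by
  intro m hm
  induction m, hm using Nat.le_induction with
  | base =>
    intro _
    have h : (Icc 1 1).image q = {q 1} := by
      rw [Icc_self, image_singleton]
    rw [h]
    exact IT.single _
  | succ m hm ih =>
    intro hmn
    have h : (Icc 1 (m + 1)).image q = insert (q (m + 1)) ((Icc 1 m).image q) := by
      rw [← image_insert]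
      congr 1
      ext x
      rw [mem_insert, mem_Icc, mem_Icc]
      omega
    rw [h]
    refine (ih (by omega)).insert ?_ (mem_image.2 ⟨m, mem_Icc.2 ⟨hm, le_rfl⟩, rfl⟩)
      (hadj m hm (by omega)) ?_
    · intro h1
      obtain ⟨i, hi, he⟩ := mem_image.1 h1
      rw [mem_Icc] at hi
      exact hinj i (m + 1) hi.1 (by omega) hmn he
    · intro w hw hwa
      obtain ⟨i, hi, rfl⟩ := mem_image.1 hw
      rw [mem_Icc] at hi
      have h2 := hno i (m + 1) hi.1 (by omega) hmn hwa
      have h3 : i = m := by omega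
      rw [h3]

/-- two vertices with `k + 1` adjacent components are linked -/
theorem linked (hG : G.Connected) (hC : Comps G S Q inC) {k : ℕ}
    (hT : ∀ T : Finset V, IT G T → T.card ≤ k + 2)
    {a a' : V} (ha : a ∈ S) (ha' : a' ∈ S) (hne : a' ≠ a) (hN : (N G inC a).card = k + 1)
    (hN' : (N G inC a').card = k + 1) : Touch G inC a a' := by
  by_contra hnt
  -- no common component
  have hcom : ∀ C, C ∈ N G inC a → C ∉ N G inC a' := by
    intro C h1 h2
    obtain ⟨z, hz, haz⟩ := mem_N.1 h2
    exact hnt ⟨z, Or.inr ⟨C, h1, hz⟩, haz⟩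
  have hfar : ∀ u u', U G inC a u → U G inC a' u' → u ≠ u' ∧ ¬ G.Adj u u' := by
    intro u u' hu hu'
    rcases hu with hu | ⟨C, hCa, huC⟩
    · rcases hu' with hu' | ⟨C', hCa', huC'⟩
      · rw [hu, hu']
        exact ⟨hne.symm, fun h => hnt ⟨a, Or.inl rfl, h.symm⟩⟩
      · rw [hu]
        refine ⟨fun h => hC.out C' u' huC' (h ▸ ha), fun h => ?_⟩
        exact hcom C' (mem_N.2 ⟨u', huC', h⟩) hCa'
    · rcases hu' with hu' | ⟨C', hCa', huC'⟩
      · rw [hu']
        refine ⟨fun h => hC.out C u huC (h ▸ ha'), fun h => ?_⟩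
        exact hnt ⟨u, Or.inr ⟨C, hCa, huC⟩, h.symm⟩
      · refine ⟨fun h => ?_, fun h => ?_⟩
        · rw [← h] at huC'
          exact hcom C hCa ((hC.uniq C C' u huC huC') ▸ hCa')
        · exact hcom C hCa ((hC.adj C C' _ _ huC huC' h) ▸ hCa')
  -- the distance
  have hex : ∃ n, ∃ u u', U G inC a u ∧ U G inC a' u' ∧ G.dist u u' = n :=
    ⟨_, a, a', Or.inl rfl, Or.inl rfl, rfl⟩
  obtain ⟨u, u', hu, hu', hd⟩ := Nat.find_spec hex
  have hmin : ∀ v v', U G inC a v → U G inC a' v' → Nat.find hex ≤ G.dist v v' :=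
    fun v v' h1 h2 => Nat.find_min' hex ⟨v, v', h1, h2, rfl⟩
  set n := Nat.find hex with hn
  obtain ⟨w, hw⟩ := hG.exists_walk_length_eq_dist u u'
  rw [hd] at hw
  have hq0 : w.getVert 0 = u := w.getVert_zero
  have hqn : w.getVert n = u' := by
    rw [← hw]
    exact w.getVert_length
  have hqa : ∀ i, i < n → G.Adj (w.getVert i) (w.getVert (i + 1)) := fun i hi =>
    w.adj_getVert_succ (by omega)
  set q : ℕ → V := fun i => w.getVert i with hq
  have hq0' : q 0 = u := hq0
  have hqn' : q n = u' := hqn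
  have hqa' : ∀ i, i < n → G.Adj (q i) (q (i + 1)) := hqa
  have hadj1 : ∀ x y, G.Adj x y → G.dist x y ≤ 1 := by
    intro x y h
    rw [dist_eq_one_iff_adj.2 h]
  have hd1 : ∀ i, i ≤ n → G.dist u (q i) ≤ i := by
    intro i
    induction i with
    | zero =>
      intro _
      rw [hq0', dist_self]
    | succ i ih =>
      intro hi
      have h1 := ih (by omega)
      have h2 := hG.dist_triangle (u := u) (v := q i) (w := q (i + 1))
      have h3 := hadj1 _ _ (hqa' i (by omega))
      omega
  have hd2 : ∀ j, j ≤ n → G.dist (q (n - j)) u' ≤ j := by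
    intro j
    induction j with
    | zero =>
      intro _
      rw [Nat.sub_zero, hqn', dist_self]
    | succ j ih =>
      intro hj
      have h1 := ih (by omega)
      have h2 := hG.dist_triangle (u := q (n - (j + 1))) (v := q (n - (j + 1) + 1)) (w := u')
      have h3 := hadj1 _ _ (hqa' (n - (j + 1)) (by omega))
      rw [show n - (j + 1) + 1 = n - j by omega] at h2 h3
      omega
  have hd2' : ∀ i, i ≤ n → G.dist (q i) u' ≤ n - i := by
    intro i hi
    have h1 := hd2 (n - i) (by omega)
    rwa [show n - (n - i) = i by omega] at h1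
  have hd1' : ∀ i, i ≤ n → G.dist u (q i) = i := by
    intro i hi
    have h1 := hd1 i hi
    have h2 := hd2' i hi
    have h3 := hG.dist_triangle (u := u) (v := q i) (w := u')
    omega
  have hn2 : 2 ≤ n := by
    by_contra hcon
    obtain ⟨h1, h2⟩ := hfar u u' hu hu'
    rcases Nat.lt_or_ge n 1 with h | h
    · have h3 : n = 0 := by omega
      rw [h3] at hd
      exact h1 ((hG.dist_eq_zero_iff).1 hd)
    · have h3 : n = 1 := by omega
      rw [h3] at hd
      exact h2 (dist_eq_one_iff_adj.1 hd)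
  have hUa : ∀ i, 1 ≤ i → i ≤ n → ¬ U G inC a (q i) := by
    intro i h1 h2 h3
    have h4 := hmin _ _ h3 hu'
    have h5 := hd2' i h2
    omega
  have hUa' : ∀ i, i ≤ n - 1 → ¬ U G inC a' (q i) := by
    intro i h1 h2
    have h4 := hmin _ _ hu h2
    have h5 := hd1 i (by omega)
    omega
  have hTa : ∀ i, 2 ≤ i → i ≤ n → ¬ Touch G inC a (q i) := by
    rintro i h1 h2 ⟨v, hv, hav⟩
    have h4 := hmin _ _ hv hu'
    have h5 := hd2' i h2
    have h6 := hG.dist_triangle (u := v) (v := q i) (w := u')
    have h7 := hadj1 _ _ hav.symm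
    omega
  have hTa' : ∀ i, i < n - 1 → ¬ Touch G inC a' (q i) := by
    rintro i h1 ⟨v, hv, hav⟩
    have h4 := hmin _ _ hu hv
    have h5 := hd1 i (by omega)
    have h6 := hG.dist_triangle (u := u) (v := q i) (w := v)
    have h7 := hadj1 _ _ hav
    omega
  -- the path
  have hP := path_tree (G := G) q (n - 1) (fun i _ h2 => hqa' i (by omega))
    (fun i j _ h2 h3 h4 => by
      have h5 := hd1' i (by omega)
      have h6 := hd1' j (by omega)
      rw [h4] at h5
      omega)
    (fun i j _ h2 h3 h4 => by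
      have h5 := hd1' i (by omega)
      have h6 := hd1' j (by omega)
      have h7 := hG.dist_triangle (u := u) (v := q i) (w := q j)
      have h8 := hadj1 _ _ h4
      omega) (n - 1) (by omega) le_rfl
  have hPc : 1 ≤ ((Icc 1 (n - 1)).image q).card := Finset.card_pos.2 hP.ne
  have hTouch' : Touch G inC a' (q (n - 1)) := by
    have h1 := hqa' (n - 1) (by omega)
    rw [show n - 1 + 1 = n by omega, hqn'] at h1
    exact ⟨u', hu', h1⟩
  have hTouch : Touch G inC a (q 1) := by
    have h1 := hqa' 0 (by omega)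
    rw [hq0'] at h1
    exact ⟨u, hu, h1.symm⟩
  obtain ⟨T₁, p1, p2, p3, p4⟩ := ext_max hC hT ha' hN' hP (b := q (n - 1))
    (mem_image.2 ⟨n - 1, mem_Icc.2 ⟨by omega, le_rfl⟩, rfl⟩)
    (fun v hv => by
      obtain ⟨i, hi, rfl⟩ := mem_image.1 hv
      rw [mem_Icc] at hi
      exact hUa' i hi.2)
    (fun v hv hvb => by
      obtain ⟨i, hi, rfl⟩ := mem_image.1 hv
      rw [mem_Icc] at hi
      refine hTa' i ?_
      rcases Nat.lt_or_ge i (n - 1) with h | h
      · exact h
      · exact absurd (by rw [show i = n - 1 by omega]) hvb)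
    hTouch'
  have hq1 : q 1 ∈ (Icc 1 (n - 1)).image q := mem_image.2 ⟨1, mem_Icc.2 ⟨le_rfl, by omega⟩, rfl⟩
  obtain ⟨T₂, q1, q2, q3, q4⟩ := ext_max hC hT ha hN p1 (b := q 1) (p2 hq1)
    (fun v hv hU => by
      by_cases hvP : v ∈ (Icc 1 (n - 1)).image q
      · obtain ⟨i, hi, rfl⟩ := mem_image.1 hvP
        rw [mem_Icc] at hi
        exact hUa i hi.1 (by omega) hU
      · exact (hfar v v hU (p4 v hv hvP)).1 rfl)
    (fun v hv hvb hto => by
      by_cases hvP : v ∈ (Icc 1 (n - 1)).image q
      · obtain ⟨i, hi, rfl⟩ := mem_image.1 hvP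
        rw [mem_Icc] at hi
        refine hTa i ?_ (by omega) hto
        rcases Nat.lt_or_ge 1 i with h | h
        · exact h
        · exact absurd (by rw [show i = 1 by omega]) hvb
      · obtain ⟨z, hz, hvz⟩ := hto
        exact (hfar z v hz (p4 v hv hvP)).2 hvz.symm)
    hTouch
  have h9 := hT T₂ q1
  omega

/-- every component has `k` neighbours in `S` -/
theorem nbrs (hC : Comps G S Q inC) {k : ℕ} (hQ : 2 ≤ Fintype.card Q)
    (hK : ∀ X : Finset V, X.card < k → ∀ x y, x ∉ X → y ∉ X →
      Relation.ReflTransGen (fun p r => G.Adj p r ∧ r ∉ X) x y) (C : Q) :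
    k ≤ (S.filter (fun a => adjC G inC a C)).card := by
  by_contra hcon
  obtain ⟨C', hC'⟩ : ∃ C', C' ≠ C := by
    by_contra h
    push Not at h
    have h1 : Fintype.card Q ≤ 1 := Fintype.card_le_one_iff.2 fun x y => by rw [h x, h y]
    omega
  obtain ⟨v, hv⟩ := hC.ne C
  obtain ⟨w, hw⟩ := hC.ne C'
  have hvX : v ∉ S.filter (fun a => adjC G inC a C) := fun h =>
    hC.out C v hv (mem_filter.1 h).1
  have hwX : w ∉ S.filter (fun a => adjC G inC a C) := fun h =>
    hC.out C' w hw (mem_filter.1 h).1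
  have hr := hK _ (not_le.1 hcon) v w hvX hwX
  have key : inC C w := by
    clear hw hwX
    induction hr with
    | refl => exact hv
    | tail _ h2 ih =>
      obtain ⟨h3, h4⟩ := h2
      by_contra hn
      rename_i y z _
      by_cases hz : z ∈ S
      · exact h4 (mem_filter.2 ⟨hz, ⟨y, ih, h3.symm⟩⟩)
      · obtain ⟨D, hD⟩ := hC.ex z hz
        have h5 := hC.adj C D _ _ ih hD h3
        rw [← h5] at hD
        exact hn hD
  exact hC' (hC.uniq C' C w hw key)

/-- **The bound.** -/
theorem bound (hG : G.Connected) (hC : Comps G S Q inC) {k : ℕ} (hk : 1 ≤ k)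
    (hT : ∀ T : Finset V, IT G T → T.card ≤ k + 2)
    (hK : ∀ X : Finset V, X.card < k → ∀ x y, x ∉ X → y ∉ X →
      Relation.ReflTransGen (fun p r => G.Adj p r ∧ r ∉ X) x y) :
    Fintype.card Q ≤ S.card + 1 := by
  by_contra hcon
  have hcon' : S.card + 2 ≤ Fintype.card Q := by omega
  have hnb : ∀ C, k ≤ (S.filter (fun a => adjC G inC a C)).card := nbrs hC (by omega) hK
  have hst : ∀ a ∈ S, (N G inC a).card ≤ k + 1 := fun a ha =>
    star_le hC (m := k + 1) hT ha
  set A := S.filter (fun a => (N G inC a).card = k + 1) with hA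
  -- double counting of the incidences
  have hdc : ∀ (S' : Finset V) (D : Finset Q),
      ∑ a ∈ S', (D.filter (fun C => adjC G inC a C)).card =
        ∑ C ∈ D, (S'.filter (fun a => adjC G inC a C)).card := by
    intro S' D
    exact Finset.sum_card_bipartiteAbove_eq_sum_card_bipartiteBelow (adjC G inC)
  have h1 : ∑ a ∈ S, (N G inC a).card = ∑ C : Q, (S.filter (fun a => adjC G inC a C)).card :=
    hdc S univ
  have h2 : ∑ a ∈ S, (N G inC a).card ≤ k * S.card + A.card := by
    have h3 : ∀ a ∈ S, (N G inC a).card ≤ k + (if (N G inC a).card = k + 1 then 1 else 0) := by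
      intro a ha
      have := hst a ha
      split_ifs <;> omega
    refine (Finset.sum_le_sum h3).trans ?_
    rw [Finset.sum_add_distrib, Finset.sum_const, smul_eq_mul, hA, Finset.card_filter]
    exact le_of_eq (by ring)
  -- the excess
  have h4 : ∀ D : Finset Q, k * D.card ≤ ∑ C ∈ D, (S.filter (fun a => adjC G inC a C)).card := by
    intro D
    have := Finset.card_nsmul_le_sum D (fun C => (S.filter (fun a => adjC G inC a C)).card) k
      (fun C _ => hnb C)
    rw [smul_eq_mul] at this
    linarith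
  have hApos : 0 < A.card := by
    have h5 := h4 univ
    rw [← h1, Finset.card_univ] at h5
    nlinarith
  obtain ⟨a, haA⟩ := Finset.card_pos.1 hApos
  have haS : a ∈ S := (mem_filter.1 haA).1
  have haN : (N G inC a).card = k + 1 := (mem_filter.1 haA).2
  -- the components adjacent to `a` and the others
  have h6 : ∑ C : Q, (S.filter (fun a => adjC G inC a C)).card =
      ∑ C ∈ N G inC a, (S.filter (fun a => adjC G inC a C)).card +
        ∑ C ∈ (N G inC a)ᶜ, (S.filter (fun a => adjC G inC a C)).card :=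
    (Finset.sum_add_sum_compl _ _).symm
  have h7 := h4 (N G inC a)ᶜ
  have h8 : (N G inC a)ᶜ.card + (k + 1) = Fintype.card Q := by
    rw [Finset.card_compl, haN]
    have := Finset.card_le_univ (N G inC a)
    omega
  -- the pairs
  have h9 : ∑ a' ∈ S, ((N G inC a).filter (fun C => adjC G inC a' C)).card =
      ∑ C ∈ N G inC a, (S.filter (fun a => adjC G inC a C)).card := hdc S (N G inC a)
  have h10 : ∑ a' ∈ A, ((N G inC a).filter (fun C => adjC G inC a' C)).card ≤
      ∑ a' ∈ S, ((N G inC a).filter (fun C => adjC G inC a' C)).card :=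
    Finset.sum_le_sum_of_subset (filter_subset _ _)
  have h11 : ∑ a' ∈ A, ((N G inC a).filter (fun C => adjC G inC a' C)).card =
      ((N G inC a).filter (fun C => adjC G inC a C)).card +
        ∑ a' ∈ A.erase a, ((N G inC a).filter (fun C => adjC G inC a' C)).card :=
    (Finset.add_sum_erase A _ haA).symm
  have h12 : ((N G inC a).filter (fun C => adjC G inC a C)).card = k + 1 := by
    rw [← haN]
    congr 1
    exact Finset.filter_true_of_mem fun C hC' => mem_N.1 hC'
  have h13 : (A.card - 1) * (k + 2) ≤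
      2 * ∑ a' ∈ A.erase a, ((N G inC a).filter (fun C => adjC G inC a' C)).card := by
    rw [Finset.mul_sum, ← Finset.card_erase_of_mem haA, ← smul_eq_mul]
    refine Finset.card_nsmul_le_sum _ _ _ fun a' ha' => ?_
    have hne : a' ≠ a := ne_of_mem_erase ha'
    have haS' := (mem_filter.1 (mem_of_mem_erase ha')).1
    have haN' := (mem_filter.1 (mem_of_mem_erase ha')).2
    exact pair hC hT haS haS' hne haN haN' (linked hG hC hT haS haS' hne haN haN')
  -- arithmetic
  set s := S.card
  set m := Fintype.card Q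
  set P := ∑ C ∈ N G inC a, (S.filter (fun a => adjC G inC a C)).card
  set P' := ∑ C ∈ (N G inC a)ᶜ, (S.filter (fun a => adjC G inC a C)).card
  set Z := ∑ a' ∈ A.erase a, ((N G inC a).filter (fun C => adjC G inC a' C)).card
  set A0 := A.card
  set m' := (N G inC a)ᶜ.card
  have e1 : P + P' ≤ k * s + A0 := by rw [← h6, ← h1]; exact h2
  have e2 : k + 1 + Z ≤ P := by
    rw [h11, h12, h9] at h10
    exact h10
  obtain ⟨B, hB⟩ : ∃ B, A0 = B + 1 := ⟨A0 - 1, by omega⟩
  rw [hB, Nat.add_sub_cancel] at h13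
  -- `m' + k + 1 = m ≥ s + 2`
  have e3 : k * (s + 1) ≤ k * (m' + k) := Nat.mul_le_mul_left k (by omega)
  have e4 : P + k * m' ≤ k * s + B + 1 := by omega
  have e5 : P + k ≤ k * k + B + 1 := by nlinarith
  have e6 : k * (k + 1) ≤ P := by
    have h14 := h4 (N G inC a)
    rw [haN] at h14
    exact h14
  have e7 : k + k ≤ B + 1 := by nlinarith
  have e8 : k * B + 4 * k ≤ 2 * (k * k) := by nlinarith
  have e9 : k * (k + k) ≤ k * (B + 1) := Nat.mul_le_mul_left k e7
  nlinarith

/-- **The bound when the induced trees are one smaller.** -/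
theorem bound_one (hC : Comps G S Q inC) {k : ℕ} (hk : 1 ≤ k) (hQ : 2 ≤ Fintype.card Q)
    (hT : ∀ T : Finset V, IT G T → T.card ≤ k + 1)
    (hK : ∀ X : Finset V, X.card < k → ∀ x y, x ∉ X → y ∉ X →
      Relation.ReflTransGen (fun p r => G.Adj p r ∧ r ∉ X) x y) :
    Fintype.card Q ≤ S.card := by
  have hnb : ∀ C, k ≤ (S.filter (fun a => adjC G inC a C)).card := nbrs hC hQ hK
  have hst : ∀ a ∈ S, (N G inC a).card ≤ k := fun a ha => star_le hC (m := k) hT ha
  have hdc : ∑ a ∈ S, (N G inC a).card = ∑ C : Q, (S.filter (fun a => adjC G inC a C)).card :=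
    Finset.sum_card_bipartiteAbove_eq_sum_card_bipartiteBelow (adjC G inC)
  have h1 : ∑ a ∈ S, (N G inC a).card ≤ S.card * k := by
    have := Finset.sum_le_card_nsmul S (fun a => (N G inC a).card) k hst
    rwa [smul_eq_mul] at this
  have h2 : Fintype.card Q * k ≤ ∑ C : Q, (S.filter (fun a => adjC G inC a C)).card := by
    have := Finset.card_nsmul_le_sum (univ : Finset Q)
      (fun C => (S.filter (fun a => adjC G inC a C)).card) k (fun C _ => hnb C)
    rwa [smul_eq_mul, Finset.card_univ] at this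
  have h3 : Fintype.card Q * k ≤ S.card * k := by
    rw [← hdc] at h2
    exact h2.trans h1
  exact Nat.le_of_mul_le_mul_right h3 (by omega)

end Pool.Agent.H388.IT
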