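import Mathlib

set_option autoImplicit false
set_option linter.dupNamespace false
set_option linter.unusedSectionVars false

/-!
# Induced trees: adding leaves (helper388)
-/

namespace Pool.Agent.H388.IT

open Finset SimpleGraph

variable {V : Type*} [DecidableEq V] (G : SimpleGraph V)

/-- The graph with the edges of `G` inside `T`. -/
def R (T : Finset V) : SimpleGraph V where
  Adj x y := x ∈ T ∧ y ∈ T ∧ G.Adj x y
  symm := ⟨fun _ _ h => ⟨h.2.1, h.1, h.2.2.symm⟩⟩
  loopless := ⟨fun x h => G.loopless.irrefl x h.2.2⟩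

/-- `T` induces a tree. -/
structure IT (T : Finset V) : Prop where
  ne : T.Nonempty
  con : ∀ x ∈ T, ∀ y ∈ T, (R G T).Reachable x y
  acy : (R G T).IsAcyclic

variable {G}

theorem IT.single (v : V) : IT G {v} where
  ne := ⟨v, mem_singleton_self v⟩
  con := by
    intro x hx y hy
    rw [mem_singleton] at hx hy
    rw [hx, hy]
  acy := by
    have h : R G {v} = ⊥ := by
      ext x y
      constructor
      · rintro ⟨h1, h2, h3⟩
        rw [mem_singleton] at h1 h2
        rw [h1, h2] at h3
        exact absurd h3 (G.loopless.irrefl v)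
      · intro h
        exact absurd h (by simp)
    rw [h]
    exact isAcyclic_bot

theorem R_mono {T T' : Finset V} (h : T ⊆ T') : R G T ≤ R G T' :=
  fun _ _ hxy => ⟨h hxy.1, h hxy.2.1, hxy.2.2⟩

theorem IT.insert {T : Finset V} (hT : IT G T) {v u : V} (hv : v ∉ T) (hu : u ∈ T)
    (huv : G.Adj u v) (huniq : ∀ w ∈ T, G.Adj w v → w = u) : IT G (insert v T) where
  ne := ⟨v, mem_insert_self v T⟩
  con := by
    have hmono : R G T ≤ R G (Insert.insert v T) := R_mono (subset_insert v T)
    have hvu : (R G (Insert.insert v T)).Reachable v u := by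
      have h : (R G (Insert.insert v T)).Adj v u :=
        ⟨mem_insert_self v T, mem_insert_of_mem hu, huv.symm⟩
      exact h.reachable
    have key : ∀ x ∈ Insert.insert v T, (R G (Insert.insert v T)).Reachable x u := by
      intro x hx
      rcases mem_insert.1 hx with h | h
      · rw [h]
        exact hvu
      · exact (hT.con x h u hu).mono hmono
    intro x hx y hy
    exact (key x hx).trans (key y hy).symm
  acy := by
    have hnr : ¬ (R G T).Reachable u v := by
      intro h
      rw [reachable_iff_reflTransGen] at h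
      rcases h.cases_tail with h1 | ⟨w, -, h2⟩
      · exact hv (h1 ▸ hu)
      · exact hv h2.2.1
    have he : R G (Insert.insert v T) = R G T ⊔ edge u v := by
      ext x y
      rw [sup_adj, edge_adj]
      constructor
      · rintro ⟨h1, h2, h3⟩
        rcases mem_insert.1 h1 with hx | hx
        · rcases mem_insert.1 h2 with hy | hy
          · rw [hx, hy] at h3
            exact absurd h3 (G.loopless.irrefl v)
          · right
            rw [hx] at h3
            have := huniq y hy h3.symm
            refine ⟨Or.inr ⟨hx.symm ▸ rfl, this.symm ▸ rfl⟩, ?_⟩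
            rw [hx, this]
            exact huv.ne.symm
        · rcases mem_insert.1 h2 with hy | hy
          · right
            rw [hy] at h3
            have := huniq x hx h3
            refine ⟨Or.inl ⟨this.symm ▸ rfl, hy.symm ▸ rfl⟩, ?_⟩
            rw [hy, this]
            exact huv.ne
          · exact Or.inl ⟨hx, hy, h3⟩
      · rintro (h | ⟨⟨h1, h2⟩ | ⟨h1, h2⟩, -⟩)
        · exact ⟨mem_insert_of_mem h.1, mem_insert_of_mem h.2.1, h.2.2⟩
        · rw [h1, h2]
          exact ⟨mem_insert_of_mem hu, mem_insert_self v T, huv⟩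
        · rw [h1, h2]
          exact ⟨mem_insert_self v T, mem_insert_of_mem hu, huv.symm⟩
    rw [he]
    exact hT.acy.sup_edge_of_not_reachable hnr

theorem IT.isTree {T : Finset V} (hT : IT G T) : (G.induce (T : Set V)).IsTree where
  connected := by
    have key : ∀ x (hx : x ∈ T) y, (R G T).Reachable x y → ∃ hy : y ∈ T,
        (G.induce (T : Set V)).Reachable ⟨x, hx⟩ ⟨y, hy⟩ := by
      intro x hx y h
      rw [reachable_iff_reflTransGen] at h
      induction h with
      | refl => exact ⟨hx, Reachable.refl _⟩
      | tail h1 h2 ih =>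
        obtain ⟨hy, ih⟩ := ih
        refine ⟨h2.2.1, ih.trans ?_⟩
        have h3 : (G.induce (T : Set V)).Adj ⟨_, hy⟩ ⟨_, h2.2.1⟩ := h2.2.2
        exact h3.reachable
    obtain ⟨x0, hx0⟩ := hT.ne
    have : Nonempty (T : Set V) := ⟨⟨x0, hx0⟩⟩
    refine ⟨fun x y => ?_⟩
    obtain ⟨hy, h⟩ := key x.1 x.2 y.1 (hT.con x.1 x.2 y.1 y.2)
    exact h
  isAcyclic := by
    refine hT.acy.comap (G := G.induce (T : Set V)) ⟨fun x => x.1, fun {x y} h => ?_⟩ ?_
    · exact ⟨x.2, y.2, h⟩
    · exact Subtype.val_injective

/-- Adding independent leaves. -/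
theorem IT.leaves {T : Finset V} (hT : IT G T) (L : Finset V) :
    (∀ x ∈ L, x ∉ T) → (∀ x ∈ L, ∃ u ∈ T, G.Adj u x ∧ ∀ w ∈ T, G.Adj w x → w = u) →
    (∀ x ∈ L, ∀ y ∈ L, ¬ G.Adj x y) → IT G (T ∪ L) := by
  induction L using Finset.induction_on with
  | empty =>
    intro _ _ _
    rw [union_empty]
    exact hT
  | insert x L hx ih =>
    intro h1 h2 h3
    have h := ih (fun y hy => h1 y (mem_insert_of_mem hy)) (fun y hy => h2 y (mem_insert_of_mem hy))
      (fun y hy z hz => h3 y (mem_insert_of_mem hy) z (mem_insert_of_mem hz))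
    obtain ⟨u, hu, hux, huu⟩ := h2 x (mem_insert_self x L)
    rw [union_insert]
    refine h.insert ?_ (mem_union_left _ hu) hux ?_
    · rw [mem_union]
      rintro (h4 | h4)
      · exact h1 x (mem_insert_self x L) h4
      · exact hx h4
    · intro w hw hwx
      rcases mem_union.1 hw with h4 | h4
      · exact huu w h4 hwx
      · exact absurd hwx (h3 w (mem_insert_of_mem h4) x (mem_insert_self x L))

end Pool.Agent.H388.IT
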